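import Pool.Agent.Helper49.TP.StW

/-! Module IFX of project TP (iteration over all the levels of the vortex, with a reference weight). -/

set_option autoImplicit false

namespace Pool.Agent.Helper18.TP

open Finset Pool.Agent.Helper49.TP Pool.Agent.Helper93.IA Pool.Agent.Helper17.IA

private lemma pack_empty {α β γ : Type} (A : Finset (α × β)) (B : Finset (β × γ))
    (C : Finset (γ × α)) : Pack A B C (∅ : Finset (α × β × γ)) :=
  ⟨fun _ h => absurd h (by simp), fun _ h => absurd h (by simp), fun _ h => absurd h (by simp),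
    fun _ h => absurd h (by simp), fun _ h => absurd h (by simp), fun _ h => absurd h (by simp)⟩

private lemma ins_univ {α β : Type} [Fintype α] [Fintype β] [DecidableEq α] [DecidableEq β]
    (A : Finset (α × β)) : ins A univ univ = A := by
  unfold ins
  ext e
  simp

/-- **IFX**: the iteration. -/
theorem hIFX : StIFX := by
  intro hPKB hPKU hCFX hISX δ c0 Λ ξ g ε n0 hξ _ hg _ hn0 hCDP n ℓ κ A B C A' B' C' X V hℓ hκ0 hκ
    hch hW hA hB hC hbal hsA hsB hsC hiA hiB hiC
  have main : ∀ i : ℕ, i ≤ ℓ → ∃ A2 B2 C2, StI g ℓ i A B C A' B' C' A2 B2 C2 V := by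
    intro i
    induction i with
    | zero =>
      intro _
      have h0 : ∀ j, V 0 j = univ := hch.zero
      refine ⟨A', B', C', ?_⟩
      refine ⟨⟨∅, pack_empty A' B' C', by simp, by simp, by simp⟩, hbal, ?_, ?_, ?_, ?_, ?_, ?_,
        ?_, ?_, ?_⟩
      · intro e _
        rw [h0, h0]
        exact ⟨mem_univ _, mem_univ _⟩
      · intro e _
        rw [h0, h0]
        exact ⟨mem_univ _, mem_univ _⟩
      · intro e _
        rw [h0, h0]
        exact ⟨mem_univ _, mem_univ _⟩
      · intro _
        exact hiA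
      · intro _
        exact hiB
      · intro _
        exact hiC
      · intro _
        rw [h0, h0, ins_univ, card_univ, Fintype.card_fin]
        exact hsA
      · intro _
        rw [h0 1, h0 2, h0 0, ins_univ, card_univ, Fintype.card_fin]
        exact hsB
      · intro _
        rw [h0 2, h0 0, ins_univ, card_univ, Fintype.card_fin]
        exact hsC
    | succ i ih =>
      intro hi
      obtain ⟨A2, B2, C2, h2⟩ := ih (by omega)
      exact hISX hPKB hPKU hCFX δ c0 Λ ξ g ε n0 hξ hg hn0 hCDP n ℓ i κ A B C A' B' C' A2 B2 C2 X V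
        (by omega) hκ0 hκ hch hW hA hB hC h2
  obtain ⟨A2, B2, C2, h2⟩ := main ℓ le_rfl
  obtain ⟨P, hP, eA2, eB2, eC2⟩ := h2.pk
  refine ⟨P, hP, ?_, ?_, ?_⟩
  · intro e he
    have h3 : e ∈ A2 := by rw [eA2]; exact he
    unfold ins
    rw [mem_filter]
    exact ⟨(mem_sdiff.mp he).1, h2.iA e h3⟩
  · intro e he
    have h3 : e ∈ B2 := by rw [eB2]; exact he
    unfold ins
    rw [mem_filter]
    exact ⟨(mem_sdiff.mp he).1, h2.iB e h3⟩
  · intro e he
    have h3 : e ∈ C2 := by rw [eC2]; exact he
    unfold ins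
    rw [mem_filter]
    exact ⟨(mem_sdiff.mp he).1, h2.iC e h3⟩

end Pool.Agent.Helper18.TP
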